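import Pool.Agent.H13.Cyc

namespace Pool.Agent.Results.MP_ee50b4_pr.NoCutoff
open Finset Filter Topology Pool.Agent.H13.Cyc

/-- Spectral gap `γ = 1 - max_{j ≠ 0} |∑ x, μ x exp (2 π i j x / n)|`. -/
noncomputable def gap {n : ℕ} [NeZero n] (μ : ZMod n → ℝ) : ℝ :=
  1 - ⨆ j : {j : ZMod n // j ≠ 0},
    ‖∑ x, μ x * Complex.exp (2 * Real.pi * Complex.I * (j.1.val * x.val) / n)‖

/-- Relaxation time. -/
noncomputable def Trel {n : ℕ} [NeZero n] (μ : ZMod n → ℝ) : ℝ := 1 / gap μ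

theorem result : ∃ (n : ℕ → ℕ) (_ : ∀ k, NeZero (n k)) (μ : ∀ k, ZMod (n k) → ℝ),
    (∀ k, 2 ≤ n k) ∧ Tendsto n atTop atTop ∧
    (∀ k, (∀ x, 0 < μ k x) ∧ ∑ x, μ k x = 1 ∧ 0 < gap (μ k) ∧ 0 < Tmix (μ k) (1 / 2)) ∧
    Tendsto (fun k => Trel (μ k) / Tmix (μ k) (1 / 2)) atTop (𝓝 0) ∧ ¬ Cutoff n μ := by
  obtain ⟨n, i, μ, h1, h2, h3, h4, h5, h6⟩ := H13.Cyc.seq
  have a : ∀ k, 1 / 2 ≤ gap (μ k) := fun k => by
    have := Real.iSup_le (fun j : {j : ZMod (n k) // j ≠ 0} => h4 k j.1 j.2) (by norm_num)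
    unfold gap
    linarith
  refine ⟨n, i, μ, h1, h2, fun k => ⟨(h3 k).1, (h3 k).2.1, by linarith [a k],
    by have := (h5 k).1; omega⟩, squeeze_zero (fun k => ?_) (fun k => ?_)
    (by simpa using tendsto_one_div_add_atTop_nhds_zero_nat.const_mul (2 : ℝ)), h6⟩
  · have : 0 < gap (μ k) := by linarith [a k]
    unfold Trel
    positivity
  · have b : (k : ℝ) + 1 ≤ Tmix (μ k) (1 / 2) := by exact_mod_cast (h5 k).1
    rw [← div_eq_mul_inv]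
    refine div_le_div₀ (by norm_num) ?_ (by positivity) b
    simpa [Trel] using one_div_le_one_div_of_le (by norm_num) (a k)

end Pool.Agent.Results.MP_ee50b4_pr.NoCutoff
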